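import Pool.Agent.T9h46.Sop.Hilbert

/-!
# Consequences of freeness over a polynomial subring
-/

namespace Pool.Agent.T9h46.Sop

open Module MvPolynomial

universe u

section

variable {K : Type*} [Field K] {S : Type u} [CommRing S] [Algebra K S]
  {d : ℕ} {θ : Fin d → S} {I : Type*} [Fintype I] {b : I → S}

/-- The coefficients of `x`. -/
noncomputable def cf (hfree : ∀ x : S, ∃! c : I → MvPolynomial (Fin d) K,
    x = ∑ i, aeval θ (c i) * b i) (x : S) : I → MvPolynomial (Fin d) K :=
  (hfree x).choose

variable (hfree : ∀ x : S, ∃! c : I → MvPolynomial (Fin d) K, x = ∑ i, aeval θ (c i) * b i)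

theorem cf_spec (x : S) : x = ∑ i, aeval θ (cf hfree x i) * b i := (hfree x).choose_spec.1

theorem cf_unique {x : S} {c : I → MvPolynomial (Fin d) K} (h : x = ∑ i, aeval θ (c i) * b i) :
    cf hfree x = c := ((hfree x).choose_spec.2 c h).symm

theorem cf_add (x y : S) : cf hfree (x + y) = cf hfree x + cf hfree y := by
  apply cf_unique
  conv_lhs => rw [cf_spec hfree x, cf_spec hfree y]
  rw [← Finset.sum_add_distrib]
  refine Finset.sum_congr rfl fun i _ => ?_
  rw [Pi.add_apply, map_add, add_mul]

theorem cf_smul (p : MvPolynomial (Fin d) K) (x : S) :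
    cf hfree (aeval θ p * x) = fun i => p * cf hfree x i := by
  apply cf_unique
  conv_lhs => rw [cf_spec hfree x]
  rw [Finset.mul_sum]
  refine Finset.sum_congr rfl fun i _ => ?_
  rw [map_mul, mul_assoc]

theorem cf_zero : cf hfree 0 = 0 := by
  apply cf_unique
  simp

include hfree in
/-- `S` is noetherian. -/
theorem isNoetherianRing : IsNoetherianRing S := by
  classical
  let _ : Algebra (MvPolynomial (Fin d) K) S := (aeval θ : MvPolynomial (Fin d) K →ₐ[K] S).toRingHom.toAlgebra
  have hfin : Module.Finite (MvPolynomial (Fin d) K) S := by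
    refine ⟨⟨(Finset.univ.image b : Finset S), ?_⟩⟩
    rw [eq_top_iff]
    rintro x -
    rw [cf_spec hfree x]
    refine Submodule.sum_mem _ fun i _ => ?_
    have : aeval θ (cf hfree x i) * b i = (cf hfree x i) • b i := by
      rw [Algebra.smul_def]
      rfl
    rw [this]
    exact Submodule.smul_mem _ _ (Submodule.subset_span (by simp))
  have h1 : IsNoetherian (MvPolynomial (Fin d) K) S :=
    isNoetherian_of_isNoetherianRing_of_finite _ _
  exact isNoetherian_of_tower (MvPolynomial (Fin d) K) h1

/-- Membership in the ideal generated by some of the `θ`. -/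
theorem mem_span_theta_iff (s : Set (Fin d)) (x : S) :
    x ∈ Ideal.span (θ '' s) ↔ ∀ i, cf hfree x i ∈ Ideal.span ((X : Fin d → MvPolynomial (Fin d) K) '' s) := by
  constructor
  · intro hx
    induction hx using Submodule.span_induction with
    | mem x hx =>
      obtain ⟨j, hj, rfl⟩ := hx
      intro i
      have h1 : θ j = aeval θ (X j : MvPolynomial (Fin d) K) * 1 := by simp
      rw [h1, cf_smul]
      exact Ideal.mul_mem_right _ _ (Ideal.subset_span ⟨j, hj, rfl⟩)
    | zero =>
      intro i
      rw [cf_zero]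
      exact Ideal.zero_mem _
    | add x y _ _ hx hy =>
      intro i
      rw [cf_add]
      exact Ideal.add_mem _ (hx i) (hy i)
    | smul r x _ hx =>
      intro i
      rw [smul_eq_mul]
      have h1 : r * x = ∑ k, aeval θ (cf hfree x k) * (r * b k) := by
        conv_lhs => rw [cf_spec hfree x]
        rw [Finset.mul_sum]
        exact Finset.sum_congr rfl fun k _ => by ring
      have h2 : cf hfree (∑ k, aeval θ (cf hfree x k) * (r * b k)) =
          ∑ k, cf hfree (aeval θ (cf hfree x k) * (r * b k)) := by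
        let φ : S →+ (I → MvPolynomial (Fin d) K) :=
          { toFun := cf hfree, map_zero' := cf_zero hfree, map_add' := cf_add hfree }
        exact map_sum φ _ _
      rw [h1, h2, Finset.sum_apply]
      refine Ideal.sum_mem _ fun k _ => ?_
      rw [cf_smul]
      exact Ideal.mul_mem_right _ _ (hx k)
  · intro h
    rw [cf_spec hfree x]
    refine Ideal.sum_mem _ fun i _ => Ideal.mul_mem_right _ _ ?_
    have h1 := Ideal.mem_map_of_mem (aeval θ : MvPolynomial (Fin d) K →ₐ[K] S) (h i)
    rw [Ideal.map_span, ← Set.image_comp] at h1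
    have h2 : ((aeval θ : MvPolynomial (Fin d) K →ₐ[K] S) ∘ X) '' s = θ '' s := by
      congr 1
      ext j
      simp
    rwa [h2] at h1

include hfree in
/-- `θ` is a regular sequence. -/
theorem regSeq_theta : RegSeq θ := by
  intro i a ha
  rw [mem_span_theta_iff hfree] at ha ⊢
  intro k
  have h1 := ha k
  have h2 : θ i * a = aeval θ (X i : MvPolynomial (Fin d) K) * a := by simp
  rw [h2, cf_smul] at h1
  rw [mem_ideal_span_X_image] at h1 ⊢
  intro m hm
  have hm' : m + Finsupp.single i 1 ∈ (X i * cf hfree a k).support := by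
    rw [MvPolynomial.mem_support_iff] at hm ⊢
    rw [add_comm, coeff_X_mul]
    exact hm
  obtain ⟨j, hj, hj'⟩ := h1 _ hm'
  refine ⟨j, hj, ?_⟩
  rw [Finsupp.add_apply, Finsupp.single_apply] at hj'
  have : i ≠ j := fun h => absurd hj (by rw [← h]; simp)
  simpa [this] using hj'

include hfree in
/-- Modulo `θ`, every element is a `K`-linear combination of the basis. -/
theorem sub_mem_span (x : S) :
    x - ∑ i, algebraMap K S (constantCoeff (cf hfree x i)) * b i ∈ Ideal.span (Set.range θ) := by
  have h0 : x - ∑ i, algebraMap K S (constantCoeff (cf hfree x i)) * b i =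
      ∑ i, (aeval θ (cf hfree x i) - algebraMap K S (constantCoeff (cf hfree x i))) * b i := by
    conv_lhs => lhs; rw [cf_spec hfree x]
    rw [← Finset.sum_sub_distrib]
    exact Finset.sum_congr rfl fun i _ => by rw [sub_mul]
  rw [h0]
  refine Ideal.sum_mem _ fun i _ => ?_
  refine Ideal.mul_mem_right _ _ ?_
  have h1 : cf hfree x i - C (constantCoeff (cf hfree x i)) ∈
      Ideal.span ((X : Fin d → MvPolynomial (Fin d) K) '' Set.univ) := by
    rw [mem_ideal_span_X_image]
    intro m hm
    rw [MvPolynomial.mem_support_iff, coeff_sub, coeff_C] at hm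
    have hm0 : m ≠ 0 := by
      rintro rfl
      apply hm
      simp [constantCoeff]
    obtain ⟨j, hj⟩ := Finsupp.ne_iff.1 hm0
    exact ⟨j, trivial, hj⟩
  have h2 := Ideal.mem_map_of_mem (aeval θ : MvPolynomial (Fin d) K →ₐ[K] S) h1
  rw [Ideal.map_span, ← Set.image_comp, Set.image_univ] at h2
  have h3 : ((aeval θ : MvPolynomial (Fin d) K →ₐ[K] S) ∘ X) = θ := by
    ext j
    simp
  rw [h3, map_sub, ← algebraMap_eq, AlgHom.commutes] at h2
  exact h2

variable (𝒜 : ℕ → Submodule K S) [GradedAlgebra 𝒜] {q : ℕ} (hθ : ∀ i, θ i ∈ 𝒜 q)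
  {deg : I → ℕ} (hb : ∀ i, b i ∈ 𝒜 (deg i))

include hfree hθ hb in
/-- The degree `j` part of `S/(θ)` is spanned by the basis elements of degree `j`. -/
theorem exists_of_degree {j : ℕ} {a : S} (ha : a ∈ 𝒜 j) :
    ∃ c : I → K, a - ∑ i with deg i = j, c i • b i ∈ part 𝒜 (Ideal.span (Set.range θ)) j := by
  classical
  have hhom : (Ideal.span (Set.range θ)).IsHomogeneous 𝒜 := by
    apply span_homogeneous
    rintro _ ⟨i, rfl⟩
    exact ⟨q, hθ i⟩
  refine ⟨fun i => constantCoeff (cf hfree a i), ?_⟩
  have h1 := hhom j (sub_mem_span hfree a)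
  rw [DirectSum.decompose_sub, DirectSum.sub_apply, Submodule.coe_sub,
    DirectSum.decompose_of_mem_same 𝒜 ha, DirectSum.decompose_sum, DirectSum.sum_apply,
    AddSubmonoidClass.coe_finsetSum] at h1
  have h2 : ∑ i, (DirectSum.decompose 𝒜 (algebraMap K S (constantCoeff (cf hfree a i)) * b i) j : S)
      = ∑ i with deg i = j, constantCoeff (cf hfree a i) • b i := by
    rw [Finset.sum_filter]
    refine Finset.sum_congr rfl fun i _ => ?_
    have h3 : algebraMap K S (constantCoeff (cf hfree a i)) * b i ∈ 𝒜 (deg i) := by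
      rw [← Algebra.smul_def]
      exact Submodule.smul_mem _ _ (hb i)
    split_ifs with h
    · rw [← h, DirectSum.decompose_of_mem_same 𝒜 h3, Algebra.smul_def]
    · rw [DirectSum.decompose_of_mem_ne 𝒜 h3 h]
  rw [h2] at h1
  refine ⟨h1, Submodule.sub_mem _ ha (Submodule.sum_mem _ fun i hi => ?_)⟩
  rw [Finset.mem_filter] at hi
  rw [← hi.2]
  exact Submodule.smul_mem _ _ (hb i)

include hfree hθ hb in
/-- `θ` is a system of parameters. -/
theorem sop_theta : ∃ j₀, ∀ j ≥ j₀, ∀ a ∈ 𝒜 j, a ∈ Ideal.span (Set.range θ) := by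
  classical
  refine ⟨Finset.univ.sup deg + 1, fun j hj a ha => ?_⟩
  obtain ⟨c, hc⟩ := exists_of_degree hfree 𝒜 hθ hb ha
  have h1 : (Finset.univ.filter fun i => deg i = j) = ∅ := by
    rw [Finset.filter_eq_empty_iff]
    intro i _ h
    have := Finset.le_sup (f := deg) (Finset.mem_univ i)
    omega
  rw [h1, Finset.sum_empty, sub_zero] at hc
  exact hc.1

include hfree hθ hb in
/-- The graded pieces are finite dimensional. -/
theorem finite_part (hq : 0 < q) (m : ℕ) : Module.Finite K (𝒜 m) := by
  classical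
  induction m using Nat.strong_induction_on with
  | _ m ih =>
    have hle : 𝒜 m ≤ Submodule.span K (b '' Set.univ) ⊔
        (if q ≤ m then ⨆ i : Fin d, (𝒜 (m - q)).map (LinearMap.mulLeft K (θ i)) else ⊥) := by
      intro a ha
      obtain ⟨c, hc⟩ := exists_of_degree hfree 𝒜 hθ hb ha
      have h1 : a = ∑ i with deg i = m, c i • b i + (a - ∑ i with deg i = m, c i • b i) := by abel
      rw [h1]
      refine Submodule.add_mem_sup ?_ ?_
      · exact Submodule.sum_mem _ fun i _ => Submodule.smul_mem _ _
          (Submodule.subset_span ⟨i, trivial, rfl⟩)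
      · obtain ⟨hcI, hcm⟩ := hc
        split_ifs with hqm
        · obtain ⟨n, c', g, hc', hsum⟩ := exists_homogeneous_coeff 𝒜 (V := Set.range θ)
            (by rintro _ ⟨i, rfl⟩; exact hθ i) hqm hcm hcI
          rw [hsum]
          refine Submodule.sum_mem _ fun l _ => ?_
          obtain ⟨i, hi⟩ := (g l).2
          refine Submodule.mem_iSup_of_mem i ⟨c' l, hc' l, ?_⟩
          rw [LinearMap.mulLeft_apply, hi, mul_comm]
        · -- below the degree of `θ` the ideal has no elements
          obtain ⟨n, c', g, hcg⟩ := Submodule.mem_span_set'.1 hcI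
          have h2 : (DirectSum.decompose 𝒜 (a - ∑ i with deg i = m, c i • b i) m : S) =
            a - ∑ i with deg i = m, c i • b i := DirectSum.decompose_of_mem_same 𝒜 hcm
          rw [← h2, ← hcg, DirectSum.decompose_sum, DirectSum.sum_apply,
            AddSubmonoidClass.coe_finsetSum]
          refine Submodule.sum_mem _ fun l _ => ?_
          obtain ⟨i, hi⟩ := (g l).2
          rw [smul_eq_mul, ← hi, DirectSum.coe_decompose_mul_of_right_mem_of_not_le 𝒜 (hθ i) hqm]
          exact Submodule.zero_mem _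
    have hfin1 : Module.Finite K (Submodule.span K (b '' Set.univ)) :=
      FiniteDimensional.span_of_finite K (Set.toFinite _)
    have hfin2 : Module.Finite K ((if q ≤ m then
        ⨆ i : Fin d, (𝒜 (m - q)).map (LinearMap.mulLeft K (θ i)) else ⊥ : Submodule K S)) := by
      by_cases hqm : q ≤ m
      · rw [if_pos hqm]
        have := ih (m - q) (by omega)
        have h3 : ∀ i : Fin d, Module.Finite K ((𝒜 (m - q)).map (LinearMap.mulLeft K (θ i))) :=
          fun i => inferInstance
        exact Submodule.finiteDimensional_iSup (fun i : Fin d =>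
          (𝒜 (m - q)).map (LinearMap.mulLeft K (θ i)))
      · rw [if_neg hqm]
        infer_instance
    have hfin3 := Submodule.finiteDimensional_sup (Submodule.span K (b '' Set.univ))
      ((if q ≤ m then ⨆ i : Fin d, (𝒜 (m - q)).map (LinearMap.mulLeft K (θ i)) else ⊥ :
        Submodule K S))
    exact Submodule.finiteDimensional_of_le hle

include hfree hθ hb in
/-- The Hilbert function of `S/(θ)` counts the basis elements. -/
theorem hilb_theta (hq : 0 < q) (m : ℕ) : hilb 𝒜 (Ideal.span (Set.range θ)) m =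
    ((Finset.univ.filter fun i => deg i = m).card : ℤ) := by
  classical
  have hfin := finite_part hfree 𝒜 hθ hb hq
  have hfm := hfin m
  have hfp : Module.Finite K (part 𝒜 (Ideal.span (Set.range θ)) m) :=
    Submodule.finiteDimensional_of_le (inf_le_right : part 𝒜 (Ideal.span (Set.range θ)) m ≤ 𝒜 m)
  -- the basis elements of degree `m` are independent modulo `θ`
  let J : Type _ := {i : I // deg i = m}
  let v : J → S := fun i => b i
  have hind : ∀ c : J → K, (∑ i, c i • v i) ∈ Ideal.span (Set.range θ) → c = 0 := by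
    intro c hc
    let cc : I → MvPolynomial (Fin d) K := fun i => if h : deg i = m then C (c ⟨i, h⟩) else 0
    have h1 : (∑ i, c i • v i) = ∑ i, aeval θ (cc i) * b i := by
      have h2 : ∀ i, aeval θ (cc i) * b i = if h : deg i = m then c ⟨i, h⟩ • b i else 0 := by
        intro i
        simp only [cc]
        split_ifs with h
        · rw [← algebraMap_eq, AlgHom.commutes, Algebra.smul_def]
        · simp
      simp_rw [h2]
      rw [Finset.sum_dite, Finset.sum_const_zero, add_zero]
      refine Finset.sum_bij' (fun i _ => ⟨i.1, by simp [i.2]⟩)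
        (fun i _ => ⟨i.1, (Finset.mem_filter.1 i.2).2⟩) ?_ ?_ ?_ ?_ ?_
      · intro i _; simp
      · intro i _; simp
      · intro i _; rfl
      · intro i _; rfl
      · intro i _; rfl
    rw [← Set.image_univ, mem_span_theta_iff hfree, cf_unique hfree h1] at hc
    funext j
    have h3 := hc j.1
    have h5 : cc j.1 = C (c j) := by
      simp only [cc]
      rw [dif_pos j.2]
    rw [h5, mem_ideal_span_X_image] at h3
    by_contra h4
    obtain ⟨i, -, hi⟩ := h3 0 (by
      rw [MvPolynomial.mem_support_iff, coeff_C, if_pos rfl]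
      exact h4)
    exact hi rfl
  have hli : LinearIndependent K v := by
    rw [Fintype.linearIndependent_iff]
    intro c hc i
    have := hind c (by rw [hc]; exact Ideal.zero_mem _)
    rw [this]
    rfl
  have hB : finrank K (Submodule.span K (Set.range v)) = Fintype.card J :=
    finrank_span_eq_card hli
  have hinf : part 𝒜 (Ideal.span (Set.range θ)) m ⊓ Submodule.span K (Set.range v) = ⊥ := by
    rw [eq_bot_iff]
    rintro x ⟨⟨hxI, -⟩, hx⟩
    have hx' : x ∈ Submodule.span K (Set.range v) := hx
    rw [Submodule.mem_span_range_iff_exists_fun] at hx'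
    obtain ⟨c, rfl⟩ := hx'
    have := hind c hxI
    simp [this]
  have hsup : part 𝒜 (Ideal.span (Set.range θ)) m ⊔ Submodule.span K (Set.range v) = 𝒜 m := by
    apply le_antisymm
    · refine sup_le inf_le_right ?_
      rw [Submodule.span_le]
      rintro _ ⟨i, rfl⟩
      have := hb i.1
      rwa [i.2] at this
    · intro a ha
      obtain ⟨c, hc⟩ := exists_of_degree hfree 𝒜 hθ hb ha
      have h1 : a = (a - ∑ i with deg i = m, c i • b i) + ∑ i with deg i = m, c i • b i := by abel
      rw [h1]
      refine Submodule.add_mem_sup hc (Submodule.sum_mem _ fun i hi => ?_)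
      exact Submodule.smul_mem _ _ (Submodule.subset_span
        ⟨⟨i, (Finset.mem_filter.1 hi).2⟩, rfl⟩)
  have hfv : Module.Finite K (Submodule.span K (Set.range v)) :=
    FiniteDimensional.span_of_finite K (Set.finite_range v)
  have hadd := Submodule.finrank_sup_add_finrank_inf_eq (part 𝒜 (Ideal.span (Set.range θ)) m)
    (Submodule.span K (Set.range v))
  rw [hinf, hsup, finrank_bot, hB, Fintype.card_subtype] at hadd
  rw [hilb]
  have h6 : (finrank K (𝒜 m) : ℤ) + 0 = finrank K (part 𝒜 (Ideal.span (Set.range θ)) m) +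
      (Finset.univ.filter fun i => deg i = m).card := by exact_mod_cast hadd
  linarith

include hfree hθ hb in
/-- The Hilbert series of `S/(f)`, `f` a regular sequence of forms of degree `N`. -/
theorem hilb_series_free (hq : 0 < q) {N : ℕ} {f : Fin d → S} (hf : ∀ i, f i ∈ 𝒜 N)
    (hreg : RegSeq f) :
    PowerSeries.mk (fun m => hilb 𝒜 (Ideal.span (Set.range f)) m) * (1 - PowerSeries.X ^ q) ^ d =
      (∑ i, (PowerSeries.X : PowerSeries ℤ) ^ deg i) * (1 - PowerSeries.X ^ N) ^ d := by
  have hfin := finite_part hfree 𝒜 hθ hb hq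
  have h1 := hilb_series 𝒜 hf hreg
  have h2 := hilb_series 𝒜 hθ (regSeq_theta hfree)
  have h3 : PowerSeries.mk (fun m => hilb 𝒜 (Ideal.span (Set.range θ)) m) =
      ∑ i, (PowerSeries.X : PowerSeries ℤ) ^ deg i := by
    ext m
    rw [PowerSeries.coeff_mk, hilb_theta hfree 𝒜 hθ hb hq, map_sum, Finset.card_filter,
      Nat.cast_sum]
    refine Finset.sum_congr rfl fun i _ => ?_
    rw [PowerSeries.coeff_X_pow]
    by_cases h : deg i = m
    · simp [h]
    · simp [h, Ne.symm h]
  rw [h1, ← h3, h2]
  ring

include hfree hθ in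
/-- Systems of parameters of degree `N` are regular sequences. -/
theorem regSeq_of_free [Nontrivial S] (h0 : ∀ s ∈ 𝒜 0, ∃ c : K, algebraMap K S c = s)
    (hq : 0 < q) {N : ℕ} (hN : 0 < N) {f : Fin d → S} (hf : ∀ i, f i ∈ 𝒜 N)
    (hsop : ∃ j₀, ∀ j ≥ j₀, ∀ a ∈ 𝒜 j, a ∈ Ideal.span (Set.range f)) : RegSeq f := by
  have : IsNoetherianRing S := isNoetherianRing hfree
  exact regSeq_of_sop 𝒜 h0 (fun i => HomogeneousIdeal.mem_irrelevant_of_mem 𝒜 hq (hθ i))
    (regSeq_theta hfree) (fun i => ⟨N, hN, hf i⟩) hsop

include hfree hθ hb in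
/-- Linear systems without base points contain systems of parameters. -/
theorem exists_sop_of_free [Nontrivial S] [Infinite K]
    (h0 : ∀ s ∈ 𝒜 0, ∃ c : K, algebraMap K S c = s)
    (hq : 0 < q) {N : ℕ} (hN : 0 < N) (V : Submodule K S) (hV : ∀ v ∈ V, v ∈ 𝒜 N)
    (hVsop : ∃ j₀, ∀ j ≥ j₀, ∀ a ∈ 𝒜 j, a ∈ Ideal.span (V : Set S)) :
    ∃ f : Fin d → S, (∀ i, f i ∈ V) ∧
      ∃ j₀, ∀ j ≥ j₀, ∀ a ∈ 𝒜 j, a ∈ Ideal.span (Set.range f) := by
  have : IsNoetherianRing S := isNoetherianRing hfree
  exact exists_sop 𝒜 h0 (fun i => HomogeneousIdeal.mem_irrelevant_of_mem 𝒜 hq (hθ i))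
    (regSeq_theta hfree) (sop_theta hfree 𝒜 hθ hb) hN V hV hVsop

end

end Pool.Agent.T9h46.Sop
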