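import Pool.Agent.T9h46.Sop.Graded

/-!
# Existence of homogeneous systems of parameters inside a linear system
-/

namespace Pool.Agent.T9h46.Sop

open RingTheory.Sequence IsLocalRing Module Pointwise

universe u

section Local

variable {R : Type u} [CommRing R] [IsNoetherianRing R] [IsLocalRing R]
  {K : Type*} [Field K] [Infinite K] [Algebra K R]

/-- A vector space over an infinite field which is not contained in any of finitely many
subspaces is not contained in their union. -/
theorem exists_notMem {E : Type*} [AddCommGroup E] [Module K E] (W : Submodule K E)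
    (s : Finset (Submodule K E)) (hs : ∀ p ∈ s, ¬ W ≤ p) : ∃ w ∈ W, ∀ p ∈ s, w ∉ p := by
  classical
  by_contra hcon
  push Not at hcon
  let s' : Finset (Subspace K W) := s.image (fun p => p.comap W.subtype)
  have h1 : (⋃ p ∈ s', ((p : Subspace K W) : Set W)) = Set.univ := by
    rw [Set.eq_univ_iff_forall]
    intro w
    obtain ⟨p, hp, hwp⟩ := hcon w.1 w.2
    simp only [Set.mem_iUnion]
    exact ⟨p.comap W.subtype, Finset.mem_image_of_mem _ hp, hwp⟩
  have h2 := Subspace.top_mem_of_biUnion_eq_univ h1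
  simp only [s', Finset.mem_image] at h2
  obtain ⟨p, hp, hpt⟩ := h2
  apply hs p hp
  intro w hw
  have : (⟨w, hw⟩ : W) ∈ p.comap W.subtype := by rw [hpt]; trivial
  exact this

theorem withBot_cancel {x : WithBot ℕ∞} {n : ℕ} (h : x + 1 ≤ ((n + 1 : ℕ) : WithBot ℕ∞)) :
    x ≤ (n : WithBot ℕ∞) := by
  induction x with
  | bot => exact bot_le
  | coe x =>
    have h1 : x + 1 ≤ ((n + 1 : ℕ) : ℕ∞) := by
      have h2 : ((x + 1 : ℕ∞) : WithBot ℕ∞) ≤ (((n + 1 : ℕ) : ℕ∞) : WithBot ℕ∞) := by
        simpa using h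
      exact WithBot.coe_le_coe.1 h2
    have h3 : x ≤ (n : ℕ∞) := by
      induction x using ENat.recTopCoe with
      | top =>
        exfalso
        rw [top_add, top_le_iff] at h1
        exact ENat.natCast_ne_top _ h1
      | coe m =>
        have h4 : m + 1 ≤ n + 1 := by exact_mod_cast h1
        exact_mod_cast Nat.le_of_succ_le_succ h4
    exact WithBot.coe_le_coe.2 h3

/-- Generic elements of a linear system without base points are a system of parameters. -/
theorem exists_sop_local (W : Submodule K R)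
    (hbp : ∀ p : Ideal R, p.IsPrime → (∀ w ∈ W, w ∈ p) → p = maximalIdeal R) (n : ℕ) :
    ∀ {M : Type u} [AddCommGroup M] [Module R M] [Module.Finite R M]
    (_ : supportDim R M ≤ n), ∃ fs : List R, fs.length = n ∧ (∀ f ∈ fs, f ∈ W) ∧
      supportDim R (M ⧸ Ideal.ofList fs • (⊤ : Submodule R M)) ≤ 0 := by
  classical
  induction n with
  | zero =>
    intro M _ _ _ hM
    refine ⟨[], rfl, by simp, ?_⟩
    rw [Ideal.ofList_nil, Submodule.bot_smul]
    refine le_trans (supportDim_eq_of_equiv (Submodule.quotEquivOfEqBot (⊥ : Submodule R M) rfl)).le ?_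
    exact_mod_cast hM
  | succ n ih =>
    intro M _ _ _ hM
    have hfin := Ideal.finite_minimalPrimes_of_isNoetherianRing R (annihilator R M)
    let s : Finset (Submodule K R) :=
      (hfin.toFinset.filter fun p => p ≠ maximalIdeal R).image fun p => p.restrictScalars K
    obtain ⟨f, hfW, hf⟩ := exists_notMem (K := K) W s (by
      intro q hq hWq
      simp only [s, Finset.mem_image, Finset.mem_filter, Set.Finite.mem_toFinset] at hq
      obtain ⟨p, ⟨hp, hpm⟩, rfl⟩ := hq
      exact hpm (hbp p hp.1.1 fun w hw => hWq hw))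
    have hf' : ∀ p ∈ (annihilator R M).minimalPrimes, p ≠ maximalIdeal R → f ∉ p := by
      intro p hp hpm hfp
      refine hf (p.restrictScalars K) ?_ hfp
      simp only [s, Finset.mem_image, Finset.mem_filter, Set.Finite.mem_toFinset]
      exact ⟨p, ⟨hp, hpm⟩, rfl⟩
    have hdim : supportDim R (QuotSMulTop f M) ≤ (n : WithBot ℕ∞) := by
      by_cases hm : maximalIdeal R ∈ (annihilator R M).minimalPrimes
      · -- the support is a point
        have h1 : supportDim R (QuotSMulTop f M) ≤ 0 := by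
          rw [supportDim]
          have hsub : Subsingleton (Module.support R (QuotSMulTop f M)) := by
            have key : ∀ p ∈ Module.support R (QuotSMulTop f M), p.asIdeal = maximalIdeal R := by
              intro p hp
              rw [Module.support_quotSMulTop] at hp
              have h2 := Module.mem_support_iff_of_finite.1 hp.1
              exact le_antisymm (le_maximalIdeal p.2.ne_top)
                (hm.2 ⟨p.2, h2⟩ (le_maximalIdeal p.2.ne_top))
            refine ⟨fun p q => ?_⟩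
            apply Subtype.ext
            apply PrimeSpectrum.ext
            rw [key _ p.2, key _ q.2]
          exact Order.krullDim_nonpos_of_subsingleton
        refine h1.trans ?_
        exact_mod_cast Nat.zero_le n
      · have h1 := supportDim_quotSMulTop_succ_le_of_notMem_minimalPrimes (R := R) (M := M) (x := f)
          (fun p hp => hf' p hp (fun h => hm (h ▸ hp)))
        exact withBot_cancel (h1.trans hM)
    obtain ⟨fs, hlen, hfs, hfs'⟩ := ih (M := QuotSMulTop f M) hdim
    refine ⟨f :: fs, by simp [hlen], ?_, ?_⟩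
    · intro g hg
      rw [List.mem_cons] at hg
      rcases hg with rfl | hg
      · exact hfW
      · exact hfs g hg
    · rwa [supportDim_eq_of_equiv (Submodule.quotOfListConsSMulTopEquivQuotSMulTopInner M f fs)]

end Local

section Graded

variable {K : Type*} [Field K] {S : Type u} [CommRing S] [Algebra K S]
  (𝒜 : ℕ → Submodule K S) [GradedAlgebra 𝒜]

/-- Elements of degree `j` of an ideal generated by elements of degree `N` have homogeneous
coefficients. -/
theorem exists_homogeneous_coeff {N : ℕ} {V : Set S} (hV : ∀ v ∈ V, v ∈ 𝒜 N) {j : ℕ}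
    (hNj : N ≤ j) {a : S} (ha : a ∈ 𝒜 j) (haV : a ∈ Ideal.span V) :
    ∃ (n : ℕ) (c : Fin n → S) (g : Fin n → V), (∀ i, c i ∈ 𝒜 (j - N)) ∧
      a = ∑ i, c i * (g i : S) := by
  obtain ⟨n, c, g, hcg⟩ := Submodule.mem_span_set'.1 haV
  refine ⟨n, fun i => (DirectSum.decompose 𝒜 (c i) (j - N) : S), g, fun i =>
    (DirectSum.decompose 𝒜 (c i) (j - N)).2, ?_⟩
  have h1 : (DirectSum.decompose 𝒜 a j : S) = a := DirectSum.decompose_of_mem_same 𝒜 ha
  rw [← h1, ← hcg, DirectSum.decompose_sum, DirectSum.sum_apply, AddSubmonoidClass.coe_finsetSum]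
  refine Finset.sum_congr rfl fun i _ => ?_
  rw [smul_eq_mul, DirectSum.coe_decompose_mul_of_right_mem_of_le 𝒜 (hV _ (g i).2) hNj]

/-- The powers of `S_+` contain the large graded pieces. -/
theorem mem_pow_plus {N : ℕ} (hN : 0 < N) {V : Set S} (hV : ∀ v ∈ V, v ∈ 𝒜 N) {j₀ : ℕ}
    (hj₀ : ∀ j ≥ j₀, ∀ a ∈ 𝒜 j, a ∈ Ideal.span V) (k : ℕ) :
    ∀ j, j₀ + k * N ≤ j → ∀ a ∈ 𝒜 j, a ∈ (plus 𝒜) ^ k := by
  induction k with
  | zero => intro j _ a _; simp
  | succ k ih =>
    intro j hj a ha
    have h0 : (k + 1) * N = k * N + N := by ring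
    have hNj : N ≤ j := by
      have : N ≤ (k + 1) * N := Nat.le_mul_of_pos_left _ (Nat.succ_pos k)
      omega
    obtain ⟨n, c, g, hc, hsum⟩ := exists_homogeneous_coeff 𝒜 hV hNj ha (hj₀ j (by omega) a ha)
    rw [hsum, pow_succ]
    refine Ideal.sum_mem _ fun i _ => Ideal.mul_mem_mul (ih (j - N) (by omega) _ (hc i)) ?_
    exact HomogeneousIdeal.mem_irrelevant_of_mem 𝒜 hN (hV _ (g i).2)

/-- If the quotient of the localization by the extension of the homogeneous ideal `I` has
dimension at most zero, then `I` contains all large graded pieces. -/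
theorem sop_of_supportDim [Nontrivial S] [IsNoetherianRing S]
    (h0 : ∀ s ∈ 𝒜 0, ∃ c : K, algebraMap K S c = s) [hpr : (plus 𝒜).IsPrime]
    {N : ℕ} (hN : 0 < N) {V : Set S} (hV : ∀ v ∈ V, v ∈ 𝒜 N) {j₀ : ℕ}
    (hj₀ : ∀ j ≥ j₀, ∀ a ∈ 𝒜 j, a ∈ Ideal.span V) {I : Ideal S} (hI : I.IsHomogeneous 𝒜)
    (hdim : supportDim (Localization.AtPrime (plus 𝒜))
      (Localization.AtPrime (plus 𝒜) ⧸ (I.map (algebraMap S (Localization.AtPrime (plus 𝒜)))) •
        (⊤ : Submodule (Localization.AtPrime (plus 𝒜)) (Localization.AtPrime (plus 𝒜)))) ≤ 0) :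
    ∃ j₁, ∀ j ≥ j₁, ∀ a ∈ 𝒜 j, a ∈ I := by
  set R := Localization.AtPrime (plus 𝒜) with hR
  have : IsNoetherianRing R := IsLocalization.isNoetherianRing (plus 𝒜).primeCompl R inferInstance
  set J : Ideal R := I.map (algebraMap S R) with hJ
  have h1 : maximalIdeal R ≤ J.radical := by
    rw [Ideal.radical_eq_sInf]
    refine le_sInf ?_
    rintro p ⟨hJp, hp⟩
    -- both `p` and the maximal ideal are in the support
    by_contra hlt
    have hpm : p < maximalIdeal R := lt_of_le_of_ne (le_maximalIdeal hp.ne_top) (fun h => hlt h.ge)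
    have hsupp : ∀ q : PrimeSpectrum R, J ≤ q.asIdeal →
        q ∈ Module.support R (R ⧸ J • (⊤ : Submodule R R)) := by
      intro q hq
      rw [Module.support_quotient]
      refine ⟨?_, hq⟩
      rw [Module.mem_support_iff_of_finite]
      have : annihilator R R = ⊥ := by
        rw [Module.annihilator_eq_bot]
        infer_instance
      rw [this]
      exact bot_le
    let q₁ : Module.support R (R ⧸ J • (⊤ : Submodule R R)) := ⟨⟨p, hp⟩, hsupp _ hJp⟩
    let q₂ : Module.support R (R ⧸ J • (⊤ : Submodule R R)) :=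
      ⟨⟨maximalIdeal R, inferInstance⟩, hsupp _ (hJp.trans hpm.le)⟩
    have hq : q₁ < q₂ := hpm
    have h2 : (1 : WithBot ℕ∞) ≤ Order.krullDim (Module.support R (R ⧸ J • (⊤ : Submodule R R))) := by
      have := Order.LTSeries.length_le_krullDim
        (((RelSeries.singleton _ q₁).snoc q₂ hq : LTSeries _))
      simpa using this
    rw [supportDim] at hdim
    have h3 := h2.trans hdim
    exact absurd h3 (by decide)
  obtain ⟨k, hk⟩ := Ideal.exists_pow_le_of_le_radical_of_fg h1 (IsNoetherian.noetherian _)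
  refine ⟨j₀ + k * N, fun j hj a ha => ?_⟩
  have h2 := mem_pow_plus 𝒜 hN hV hj₀ k j hj a ha
  have h3 : algebraMap S R a ∈ I.map (algebraMap S R) := by
    apply hk
    rw [← Localization.AtPrime.map_eq_maximalIdeal, ← Ideal.map_pow]
    exact Ideal.mem_map_of_mem _ h2
  rw [IsLocalization.algebraMap_mem_map_algebraMap_iff (plus 𝒜).primeCompl] at h3
  obtain ⟨s, hs, hsa⟩ := h3
  exact mem_of_mul_mem 𝒜 h0 hI hs ha hsa

/-- **Existence of homogeneous systems of parameters in a linear system without base points.** -/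
theorem exists_sop [Nontrivial S] [IsNoetherianRing S] [Infinite K]
    (h0 : ∀ s ∈ 𝒜 0, ∃ c : K, algebraMap K S c = s) {d : ℕ} {θ : Fin d → S}
    (hθ : ∀ i, θ i ∈ plus 𝒜) (hreg : RegSeq θ)
    (hθsop : ∃ j₀, ∀ j ≥ j₀, ∀ a ∈ 𝒜 j, a ∈ Ideal.span (Set.range θ))
    {N : ℕ} (hN : 0 < N) (V : Submodule K S) (hV : ∀ v ∈ V, v ∈ 𝒜 N)
    (hVsop : ∃ j₀, ∀ j ≥ j₀, ∀ a ∈ 𝒜 j, a ∈ Ideal.span (V : Set S)) :
    ∃ f : Fin d → S, (∀ i, f i ∈ V) ∧
      ∃ j₀, ∀ j ≥ j₀, ∀ a ∈ 𝒜 j, a ∈ Ideal.span (Set.range f) := by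
  classical
  have hmax := plus_isMaximal 𝒜 h0
  have hpr : (plus 𝒜).IsPrime := hmax.isPrime
  set R := Localization.AtPrime (plus 𝒜) with hR
  have : IsNoetherianRing R := IsLocalization.isNoetherianRing (plus 𝒜).primeCompl R inferInstance
  -- the dimension of the localization
  have h1 : IsRegular R ((List.ofFn θ).map (algebraMap S R)) := by
    refine IsWeaklyRegular.isRegular_of_isLocalization_of_mem R (plus 𝒜)
      ((regSeq_iff θ).1 hreg) ?_
    intro r hr
    rw [List.mem_ofFn] at hr
    obtain ⟨i, rfl⟩ := hr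
    exact hθ i
  have hdim : supportDim R R ≤ (d : WithBot ℕ∞) := by
    have h2 := supportDim_eq_length _ h1 (supportDim_loc_nonpos 𝒜 hθsop _ (by
      rw [Ideal.map_span, ← Ideal.map_ofList, Ideal.ofList, Ideal.map_span]
      refine Ideal.span_mono (Set.image_mono ?_)
      rintro _ ⟨i, rfl⟩
      simp))
    rw [h2]
    simp
  -- choose generic elements
  let W : Submodule K R := V.map (IsScalarTower.toAlgHom K S R).toLinearMap
  obtain ⟨fs, hlen, hfs, hfs'⟩ := exists_sop_local (K := K) W (by
    intro p hp hWp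
    have h2 : Ideal.span (V : Set S) ≤ p.comap (algebraMap S R) := by
      rw [Ideal.span_le]
      intro v hv
      exact hWp _ (Submodule.mem_map_of_mem hv)
    have h3 := eq_plus_of_prime 𝒜 hVsop (Ideal.IsPrime.comap (algebraMap S R)) h2
    refine le_antisymm (le_maximalIdeal hp.ne_top) ?_
    rw [← Localization.AtPrime.map_eq_maximalIdeal, Ideal.map_le_iff_le_comap]
    exact h3) d (M := R) hdim
  have hpre : ∀ i : Fin d, ∃ v ∈ V, algebraMap S R v = fs[i] := by
    intro i
    have h2 := hfs fs[i] (List.getElem_mem _)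
    rw [Submodule.mem_map] at h2
    obtain ⟨v, hv, hv'⟩ := h2
    exact ⟨v, hv, hv'⟩
  choose f hfV hf using hpre
  refine ⟨f, hfV, ?_⟩
  obtain ⟨j₀, hj₀⟩ := hVsop
  refine sop_of_supportDim 𝒜 h0 hN (V := (V : Set S)) hV hj₀ (span_homogeneous 𝒜 ?_) ?_
  · rintro _ ⟨i, rfl⟩
    exact ⟨N, hV _ (hfV i)⟩
  · have h3 : (Ideal.span (Set.range f)).map (algebraMap S R) = Ideal.ofList fs := by
      rw [Ideal.map_span, Ideal.ofList, ← Set.range_comp]
      congr 1
      ext r
      simp only [Set.mem_range, Function.comp_apply, Set.mem_ofPred_eq]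
      constructor
      · rintro ⟨i, rfl⟩
        rw [hf]
        exact List.getElem_mem _
      · intro hr
        obtain ⟨i, hi, rfl⟩ := List.getElem_of_mem hr
        exact ⟨⟨i, by omega⟩, hf _⟩
    rw [h3]
    exact hfs'

end Graded

end Pool.Agent.T9h46.Sop
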