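import Pool.Agent.T9h46.Sop.Local

/-!
# Homogeneous systems of parameters of graded Cohen-Macaulay algebras
-/

namespace Pool.Agent.T9h46.Sop

open RingTheory.Sequence IsLocalRing Module Pointwise

universe u

/-- `f_0, .., f_(d-1)` is a (weakly) regular sequence on `S`. -/
def RegSeq {S : Type u} [CommRing S] {d : ℕ} (f : Fin d → S) : Prop :=
  ∀ (i : Fin d) (a : S), f i * a ∈ Ideal.span (f '' {j | j < i}) →
    a ∈ Ideal.span (f '' {j | j < i})

theorem ofList_take {S : Type u} [CommRing S] {d : ℕ} (f : Fin d → S) (i : ℕ) :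
    Ideal.ofList ((List.ofFn f).take i) = Ideal.span (f '' {j | (j : ℕ) < i}) := by
  rw [Ideal.ofList]
  congr 1
  ext r
  simp only [Set.mem_ofPred_eq, Set.mem_image]
  rw [List.mem_take_iff_getElem]
  constructor
  · rintro ⟨j, hj, rfl⟩
    rw [lt_min_iff, List.length_ofFn] at hj
    exact ⟨⟨j, hj.2⟩, hj.1, by simp⟩
  · rintro ⟨j, hj, rfl⟩
    refine ⟨j, ?_, by simp⟩
    rw [lt_min_iff, List.length_ofFn]
    exact ⟨hj, j.2⟩

theorem regSeq_iff {S : Type u} [CommRing S] {d : ℕ} (f : Fin d → S) :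
    RegSeq f ↔ IsWeaklyRegular S (List.ofFn f) := by
  rw [isWeaklyRegular_iff]
  constructor
  · intro h i hi
    rw [isSMulRegular_quotient_iff_mem_of_smul_mem]
    intro x hx
    have hi' : i < d := by simpa using hi
    have h1 := h ⟨i, hi'⟩ x
    rw [ofList_take, smul_eq_mul, Ideal.mul_top] at hx ⊢
    rw [List.getElem_ofFn, smul_eq_mul] at hx
    exact h1 hx
  · intro h i a ha
    have h1 := h i (by simp)
    rw [isSMulRegular_quotient_iff_mem_of_smul_mem] at h1
    have h2 := h1 a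
    rw [ofList_take, smul_eq_mul, Ideal.mul_top, List.getElem_ofFn, smul_eq_mul] at h2
    exact h2 ha

section

variable {K : Type*} [Field K] {S : Type u} [CommRing S] [Algebra K S]
  (𝒜 : ℕ → Submodule K S) [GradedAlgebra 𝒜]

/-- The ideal `S_+`. -/
abbrev plus : Ideal S := (HomogeneousIdeal.irrelevant 𝒜).toIdeal

theorem mem_plus_iff (x : S) : x ∈ plus 𝒜 ↔ (DirectSum.decompose 𝒜 x 0 : S) = 0 := by
  exact Iff.rfl

/-- The degree zero part of an element outside `S_+` is a nonzero scalar. -/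
theorem exists_scalar (h0 : ∀ s ∈ 𝒜 0, ∃ c : K, algebraMap K S c = s) {s : S}
    (hs : s ∉ plus 𝒜) : ∃ c : K, c ≠ 0 ∧ (DirectSum.decompose 𝒜 s 0 : S) = algebraMap K S c := by
  obtain ⟨c, hc⟩ := h0 _ (DirectSum.decompose 𝒜 s 0).2
  refine ⟨c, ?_, hc.symm⟩
  rintro rfl
  apply hs
  rw [mem_plus_iff, ← hc, map_zero]

/-- Homogeneous ideals are saturated with respect to the complement of `S_+`, on homogeneous
elements. -/
theorem mem_of_mul_mem (h0 : ∀ s ∈ 𝒜 0, ∃ c : K, algebraMap K S c = s) {I : Ideal S}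
    (hI : I.IsHomogeneous 𝒜) {s : S} (hs : s ∉ plus 𝒜) {a : S} {e : ℕ} (ha : a ∈ 𝒜 e)
    (h : s * a ∈ I) : a ∈ I := by
  obtain ⟨c, hc, hc'⟩ := exists_scalar 𝒜 h0 hs
  have h1 := hI e h
  rw [DirectSum.coe_decompose_mul_of_right_mem_of_le 𝒜 ha le_rfl, Nat.sub_self, hc'] at h1
  have h2 := I.mul_mem_left (algebraMap K S c⁻¹) h1
  rwa [← mul_assoc, ← map_mul, inv_mul_cancel₀ hc, map_one, one_mul] at h2

theorem one_notMem_plus [Nontrivial S] : (1 : S) ∉ plus 𝒜 := by
  rw [mem_plus_iff, DirectSum.decompose_of_mem_same 𝒜 SetLike.GradedOne.one_mem]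
  exact one_ne_zero

theorem plus_isMaximal [Nontrivial S] (h0 : ∀ s ∈ 𝒜 0, ∃ c : K, algebraMap K S c = s) :
    (plus 𝒜).IsMaximal := by
  rw [Ideal.isMaximal_iff]
  refine ⟨one_notMem_plus 𝒜, ?_⟩
  intro J x hJ hx hxJ
  obtain ⟨c, hc, hc'⟩ := exists_scalar 𝒜 h0 hx
  have h1 : x - DirectSum.decompose 𝒜 x 0 ∈ plus 𝒜 := by
    rw [mem_plus_iff, DirectSum.decompose_sub, DirectSum.sub_apply, Submodule.coe_sub,
      DirectSum.decompose_coe, DirectSum.of_eq_same, sub_self]
  have h2 : (DirectSum.decompose 𝒜 x 0 : S) ∈ J := by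
    have := J.sub_mem hxJ (hJ h1)
    simpa using this
  rw [hc'] at h2
  have h3 := J.mul_mem_left (algebraMap K S c⁻¹) h2
  rwa [← map_mul, inv_mul_cancel₀ hc, map_one] at h3

/-- An ideal generated by homogeneous elements is homogeneous. -/
theorem span_homogeneous {T : Set S} (hT : ∀ t ∈ T, ∃ e, t ∈ 𝒜 e) :
    (Ideal.span T).IsHomogeneous 𝒜 :=
  Ideal.homogeneous_span 𝒜 T fun x hx => by
    obtain ⟨e, he⟩ := hT x hx
    exact ⟨e, he⟩

/-- If all large graded pieces lie in the ideal `I`, then a prime ideal containing `I` and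
contained in `S_+` is `S_+`. -/
theorem eq_plus_of_prime {I p : Ideal S} (hI : ∃ j₀, ∀ j ≥ j₀, ∀ a ∈ 𝒜 j, a ∈ I)
    (hp : p.IsPrime) (hIp : I ≤ p) : plus 𝒜 ≤ p := by
  obtain ⟨j₀, hj⟩ := hI
  rw [plus, HomogeneousIdeal.irrelevant_eq_span, Ideal.span_le]
  refine Set.iUnion_subset fun i => Set.iUnion_subset fun hi => ?_
  intro x hx
  have h1 : x ^ (j₀ + 1) ∈ 𝒜 ((j₀ + 1) • i) := SetLike.pow_mem_graded _ hx
  have h2 : x ^ (j₀ + 1) ∈ p := hIp (hj _ (by
    have : 1 ≤ i := hi
    calc j₀ ≤ (j₀ + 1) * 1 := by omega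
      _ ≤ (j₀ + 1) * i := Nat.mul_le_mul_left _ this) _ h1)
  exact hp.mem_of_pow_mem _ h2

/-- In the localization at `S_+`, an ideal containing all large graded pieces has quotient of
dimension at most zero. -/
theorem supportDim_loc_nonpos [IsNoetherianRing S] [hpr : (plus 𝒜).IsPrime] {I : Ideal S}
    (hI : ∃ j₀, ∀ j ≥ j₀, ∀ a ∈ 𝒜 j, a ∈ I) (J : Ideal (Localization.AtPrime (plus 𝒜)))
    (hJ : I.map (algebraMap S _) ≤ J) :
    supportDim (Localization.AtPrime (plus 𝒜))
      (Localization.AtPrime (plus 𝒜) ⧸ J • (⊤ : Submodule (Localization.AtPrime (plus 𝒜))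
        (Localization.AtPrime (plus 𝒜)))) ≤ 0 := by
  set R := Localization.AtPrime (plus 𝒜) with hR
  have : IsNoetherianRing R := IsLocalization.isNoetherianRing (plus 𝒜).primeCompl R inferInstance
  rw [supportDim]
  have hsub : Subsingleton (Module.support R (R ⧸ J • (⊤ : Submodule R R))) := by
    have key : ∀ p ∈ Module.support R (R ⧸ J • (⊤ : Submodule R R)),
        p.asIdeal = maximalIdeal R := by
      intro p hp
      rw [Module.support_quotient] at hp
      have h1 : J ≤ p.asIdeal := hp.2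
      have h2 : I ≤ p.asIdeal.comap (algebraMap S R) := Ideal.map_le_iff_le_comap.1 (hJ.trans h1)
      have h3 := eq_plus_of_prime 𝒜 hI inferInstance h2
      refine le_antisymm (le_maximalIdeal p.2.ne_top) ?_
      rw [← Localization.AtPrime.map_eq_maximalIdeal, Ideal.map_le_iff_le_comap]
      exact h3
    refine ⟨fun p q => ?_⟩
    apply Subtype.ext
    apply PrimeSpectrum.ext
    rw [key _ p.2, key _ q.2]
  exact Order.krullDim_nonpos_of_subsingleton

/-- **Homogeneous systems of parameters of graded Cohen-Macaulay algebras are regular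
sequences.** -/
theorem regSeq_of_sop [Nontrivial S] [IsNoetherianRing S]
    (h0 : ∀ s ∈ 𝒜 0, ∃ c : K, algebraMap K S c = s) {d : ℕ} {θ : Fin d → S}
    (hθ : ∀ i, θ i ∈ plus 𝒜) (hreg : RegSeq θ) {f : Fin d → S}
    (hf : ∀ i, ∃ e, 0 < e ∧ f i ∈ 𝒜 e)
    (hsop : ∃ j₀, ∀ j ≥ j₀, ∀ a ∈ 𝒜 j, a ∈ Ideal.span (Set.range f)) : RegSeq f := by
  classical
  have hmax := plus_isMaximal 𝒜 h0
  have hpr : (plus 𝒜).IsPrime := hmax.isPrime
  set R := Localization.AtPrime (plus 𝒜) with hR
  have : IsNoetherianRing R := IsLocalization.isNoetherianRing (plus 𝒜).primeCompl R inferInstance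
  have hfm : ∀ i, f i ∈ plus 𝒜 := by
    intro i
    obtain ⟨e, he, hfe⟩ := hf i
    exact HomogeneousIdeal.mem_irrelevant_of_mem 𝒜 he hfe
  have h1 : IsRegular R ((List.ofFn θ).map (algebraMap S R)) := by
    refine IsWeaklyRegular.isRegular_of_isLocalization_of_mem R (plus 𝒜)
      ((regSeq_iff θ).1 hreg) ?_
    intro r hr
    rw [List.mem_ofFn] at hr
    obtain ⟨i, rfl⟩ := hr
    exact hθ i
  have h2 : IsWeaklyRegular R ((List.ofFn f).map (algebraMap S R)) := by
    refine regular_of_sop d ((List.ofFn θ).map (algebraMap S R)) _ (by simp) (by simp) h1 ?_ ?_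
    · intro g hg
      rw [List.mem_map] at hg
      obtain ⟨g, hg, rfl⟩ := hg
      rw [List.mem_ofFn] at hg
      obtain ⟨i, rfl⟩ := hg
      rw [← Localization.AtPrime.map_eq_maximalIdeal]
      exact Ideal.mem_map_of_mem _ (hfm i)
    · refine supportDim_loc_nonpos 𝒜 hsop _ ?_
      rw [Ideal.map_span, ← Ideal.map_ofList, Ideal.ofList, Ideal.map_span]
      refine Ideal.span_mono (Set.image_mono ?_)
      rintro _ ⟨i, rfl⟩
      simp
  rw [List.map_ofFn] at h2
  have h3 : RegSeq (fun i => algebraMap S R (f i)) := (regSeq_iff _).2 h2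
  intro i a ha
  set I : Ideal S := Ideal.span (f '' {j | j < i}) with hIdef
  have hIhom : I.IsHomogeneous 𝒜 := by
    apply span_homogeneous
    rintro _ ⟨j, -, rfl⟩
    obtain ⟨e, -, he⟩ := hf j
    exact ⟨e, he⟩
  have hmapI : I.map (algebraMap S R) = Ideal.span ((fun i => algebraMap S R (f i)) '' {j | j < i}) := by
    rw [hIdef, Ideal.map_span, Set.image_image]
  -- every homogeneous component of `a` lies in `I`
  have hcomp : ∀ e, (DirectSum.decompose 𝒜 a e : S) ∈ I := by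
    intro e
    obtain ⟨ei, -, hei⟩ := hf i
    have h4 : f i * (DirectSum.decompose 𝒜 a e : S) ∈ I := by
      have := hIhom (ei + e) ha
      rwa [DirectSum.coe_decompose_mul_add_of_left_mem 𝒜 hei] at this
    have h5 : algebraMap S R (DirectSum.decompose 𝒜 a e : S) ∈ I.map (algebraMap S R) := by
      rw [hmapI]
      apply h3 i
      rw [← hmapI, ← map_mul]
      exact Ideal.mem_map_of_mem _ h4
    rw [IsLocalization.algebraMap_mem_map_algebraMap_iff (plus 𝒜).primeCompl] at h5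
    obtain ⟨s, hs, hsa⟩ := h5
    exact mem_of_mul_mem 𝒜 h0 hIhom hs (DirectSum.decompose 𝒜 a e).2 hsa
  rw [← DirectSum.sum_support_decompose 𝒜 a]
  exact Ideal.sum_mem _ fun e _ => hcomp e

end

end Pool.Agent.T9h46.Sop
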