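import Pool.Agent.T9h46.Sop.Exist

/-!
# The Hilbert function of the quotient by a homogeneous regular sequence
-/

namespace Pool.Agent.T9h46.Sop

open Module

universe u

theorem finrank_map_add {K V W : Type*} [Field K] [AddCommGroup V] [Module K V] [AddCommGroup W]
    [Module K W] (L : V →ₗ[K] W) (X : Submodule K V) [Module.Finite K X] :
    finrank K (X.map L) + finrank K (X ⊓ LinearMap.ker L : Submodule K V) = finrank K X := by
  have h1 := LinearMap.finrank_range_add_finrank_ker (L.domRestrict X)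
  rw [LinearMap.range_domRestrict, LinearMap.ker_domRestrict] at h1
  rw [← h1]
  congr 1
  have h2 : (X ⊓ LinearMap.ker L) = ((LinearMap.ker L).submoduleOf X).map X.subtype := by
    rw [Submodule.submoduleOf, Submodule.map_comap_subtype]
  rw [h2]
  exact Submodule.finrank_map_subtype_eq _ _

section

variable {K : Type*} [Field K] {S : Type u} [CommRing S] [Algebra K S]
  (𝒜 : ℕ → Submodule K S) [GradedAlgebra 𝒜]

/-- The degree `m` part of the ideal `I`. -/
def part (I : Ideal S) (m : ℕ) : Submodule K S := I.restrictScalars K ⊓ 𝒜 m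

/-- The Hilbert function of `S/I`. -/
noncomputable def hilb (I : Ideal S) (m : ℕ) : ℤ :=
  (finrank K (𝒜 m) : ℤ) - finrank K (part 𝒜 I m)

omit [GradedAlgebra 𝒜] in
theorem mem_part {I : Ideal S} {m : ℕ} {a : S} : a ∈ part 𝒜 I m ↔ a ∈ I ∧ a ∈ 𝒜 m := Iff.rfl

omit [GradedAlgebra 𝒜] in
theorem hilb_nonneg [∀ m, Module.Finite K (𝒜 m)] (I : Ideal S) (m : ℕ) : 0 ≤ hilb 𝒜 I m := by
  have h : finrank K (part 𝒜 I m) ≤ finrank K (𝒜 m) := Submodule.finrank_mono inf_le_right
  rw [hilb]
  omega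

omit [GradedAlgebra 𝒜] in
theorem hilb_eq_zero_iff [∀ m, Module.Finite K (𝒜 m)] (I : Ideal S) (m : ℕ) :
    hilb 𝒜 I m = 0 ↔ ∀ a ∈ 𝒜 m, a ∈ I := by
  rw [hilb, sub_eq_zero]
  constructor
  · intro h a ha
    have h1 : part 𝒜 I m = 𝒜 m :=
      Submodule.eq_of_le_of_finrank_eq inf_le_right (by exact_mod_cast h.symm)
    have h2 : a ∈ part 𝒜 I m := by rw [h1]; exact ha
    exact h2.1
  · intro h
    have h1 : part 𝒜 I m = 𝒜 m := le_antisymm inf_le_right (fun a ha => ⟨h a ha, ha⟩)
    rw [h1]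

omit [GradedAlgebra 𝒜] in
theorem hilb_bot (m : ℕ) : hilb 𝒜 (⊥ : Ideal S) m = finrank K (𝒜 m) := by
  have h1 : part 𝒜 (⊥ : Ideal S) m = ⊥ := by
    rw [eq_bot_iff]
    rintro x ⟨hx, -⟩
    exact hx
  rw [hilb, h1, finrank_bot]
  simp

/-- The quotient by one more homogeneous regular element of degree `N`. -/
theorem hilb_sup_span [∀ m, Module.Finite K (𝒜 m)] {I : Ideal S} (hI : I.IsHomogeneous 𝒜)
    {N : ℕ} {f : S} (hf : f ∈ 𝒜 N) (hreg : ∀ a, f * a ∈ I → a ∈ I) (m : ℕ) :
    hilb 𝒜 (I ⊔ Ideal.span {f}) m = hilb 𝒜 I m - if N ≤ m then hilb 𝒜 I (m - N) else 0 := by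
  split_ifs with hNm
  · let L : S →ₗ[K] S := LinearMap.mulLeft K f
    have hX := finrank_map_add L (𝒜 (m - N))
    have hYfin : Module.Finite K (part 𝒜 I (m - N)) :=
      Submodule.finiteDimensional_of_le (inf_le_right : part 𝒜 I (m - N) ≤ 𝒜 (m - N))
    have hY := finrank_map_add L (part 𝒜 I (m - N))
    have hker : part 𝒜 I (m - N) ⊓ LinearMap.ker L = 𝒜 (m - N) ⊓ LinearMap.ker L := by
      apply le_antisymm
      · exact inf_le_inf_right _ inf_le_right
      · rintro x ⟨hx, hxL⟩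
        refine ⟨⟨hreg x ?_, hx⟩, hxL⟩
        have : f * x = 0 := hxL
        rw [this]
        exact I.zero_mem
    have hsup : part 𝒜 (I ⊔ Ideal.span {f}) m = part 𝒜 I m ⊔ (𝒜 (m - N)).map L := by
      apply le_antisymm
      · rintro x ⟨hx, hxm⟩
        have hx' : x ∈ I ⊔ Ideal.span {f} := hx
        rw [Submodule.mem_sup] at hx'
        obtain ⟨y, hy, z, hz, rfl⟩ := hx'
        rw [Ideal.mem_span_singleton] at hz
        obtain ⟨w, rfl⟩ := hz
        have h1 : (DirectSum.decompose 𝒜 (y + f * w) m : S) = y + f * w :=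
          DirectSum.decompose_of_mem_same 𝒜 hxm
        rw [← h1, DirectSum.decompose_add, DirectSum.add_apply, Submodule.coe_add,
          DirectSum.coe_decompose_mul_of_left_mem_of_le 𝒜 hf hNm]
        refine Submodule.add_mem_sup ⟨hI m hy, (DirectSum.decompose 𝒜 y m).2⟩ ?_
        exact ⟨_, (DirectSum.decompose 𝒜 w (m - N)).2, rfl⟩
      · refine sup_le ?_ ?_
        · rintro x ⟨hx, hxm⟩
          exact ⟨Ideal.mem_sup_left hx, hxm⟩
        · rintro _ ⟨w, hw, rfl⟩
          refine ⟨Ideal.mem_sup_right (Ideal.mul_mem_right _ _ (Ideal.mem_span_singleton_self f)), ?_⟩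
          have h1 := SetLike.GradedMul.mul_mem hf hw
          rwa [Nat.add_sub_cancel' hNm] at h1
    have hinf : part 𝒜 I m ⊓ (𝒜 (m - N)).map L = (part 𝒜 I (m - N)).map L := by
      apply le_antisymm
      · rintro _ ⟨⟨hx, -⟩, w, hw, rfl⟩
        exact ⟨w, ⟨hreg w hx, hw⟩, rfl⟩
      · rintro _ ⟨w, ⟨hwI, hw⟩, rfl⟩
        refine ⟨⟨I.mul_mem_left f hwI, ?_⟩, w, hw, rfl⟩
        have h1 := SetLike.GradedMul.mul_mem hf hw
        rwa [Nat.add_sub_cancel' hNm] at h1
    have hPfin : Module.Finite K (part 𝒜 I m) :=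
      Submodule.finiteDimensional_of_le (inf_le_right : part 𝒜 I m ≤ 𝒜 m)
    have hadd := Submodule.finrank_sup_add_finrank_inf_eq (part 𝒜 I m) ((𝒜 (m - N)).map L)
    rw [← hsup, hinf] at hadd
    rw [hker] at hY
    simp only [hilb]
    push_cast [← hadd, ← hX, ← hY]
    have h1 : (finrank K (part 𝒜 (I ⊔ Ideal.span {f}) m) : ℤ) + finrank K ((part 𝒜 I (m - N)).map L)
      = finrank K (part 𝒜 I m) + finrank K ((𝒜 (m - N)).map L) := by exact_mod_cast hadd
    linarith
  · have h1 : part 𝒜 (I ⊔ Ideal.span {f}) m = part 𝒜 I m := by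
      apply le_antisymm
      · rintro x ⟨hx, hxm⟩
        have hx' : x ∈ I ⊔ Ideal.span {f} := hx
        rw [Submodule.mem_sup] at hx'
        obtain ⟨y, hy, z, hz, rfl⟩ := hx'
        rw [Ideal.mem_span_singleton] at hz
        obtain ⟨w, rfl⟩ := hz
        have h1 : (DirectSum.decompose 𝒜 (y + f * w) m : S) = y + f * w :=
          DirectSum.decompose_of_mem_same 𝒜 hxm
        rw [← h1, DirectSum.decompose_add, DirectSum.add_apply, Submodule.coe_add,
          DirectSum.coe_decompose_mul_of_left_mem_of_not_le 𝒜 hf hNm, add_zero]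
        exact ⟨hI m hy, (DirectSum.decompose 𝒜 y m).2⟩
      · rintro x ⟨hx, hxm⟩
        exact ⟨Ideal.mem_sup_left hx, hxm⟩
    rw [hilb, h1, sub_zero, hilb]

/-- **The Hilbert series of the quotient by a homogeneous regular sequence of degree `N`.** -/
theorem hilb_series [∀ m, Module.Finite K (𝒜 m)] {d : ℕ} {f : Fin d → S} {N : ℕ}
    (hf : ∀ i, f i ∈ 𝒜 N) (hreg : RegSeq f) :
    PowerSeries.mk (fun m => hilb 𝒜 (Ideal.span (Set.range f)) m) =
      PowerSeries.mk (fun m => (finrank K (𝒜 m) : ℤ)) * (1 - PowerSeries.X ^ N) ^ d := by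
  have key : ∀ i ≤ d, PowerSeries.mk (fun m => hilb 𝒜 (Ideal.span (f '' {j | (j : ℕ) < i})) m) =
      PowerSeries.mk (fun m => (finrank K (𝒜 m) : ℤ)) * (1 - PowerSeries.X ^ N) ^ i := by
    intro i
    induction i with
    | zero =>
      intro _
      have h1 : (f '' {j | (j : ℕ) < 0}) = ∅ := by simp
      rw [h1, Ideal.span_empty, pow_zero, mul_one]
      congr 1
      ext m
      exact hilb_bot 𝒜 m
    | succ i ih =>
      intro hi
      have h1 : (f '' {j | (j : ℕ) < i + 1}) = (f '' {j | (j : ℕ) < i}) ∪ {f ⟨i, by omega⟩} := by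
        ext x
        simp only [Set.mem_image, Set.mem_union, Set.mem_singleton_iff, Set.mem_ofPred_eq]
        constructor
        · rintro ⟨j, hj, rfl⟩
          rcases Nat.lt_succ_iff_lt_or_eq.1 hj with h | h
          · exact Or.inl ⟨j, h, rfl⟩
          · right
            congr 1
            exact Fin.ext h
        · rintro (⟨j, hj, rfl⟩ | rfl)
          · exact ⟨j, by omega, rfl⟩
          · exact ⟨⟨i, by omega⟩, by simp, rfl⟩
      rw [h1, Ideal.span_union, pow_succ, ← mul_assoc, ← ih (by omega), mul_sub, mul_one]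
      have hhom : (Ideal.span (f '' {j | (j : ℕ) < i})).IsHomogeneous 𝒜 := by
        apply span_homogeneous
        rintro _ ⟨j, -, rfl⟩
        exact ⟨N, hf j⟩
      have h2 := hilb_sup_span 𝒜 hhom (hf ⟨i, by omega⟩) (hreg ⟨i, by omega⟩)
      ext m
      rw [PowerSeries.coeff_mk, h2 m, map_sub, PowerSeries.coeff_mk, PowerSeries.coeff_mul_X_pow']
      simp only [PowerSeries.coeff_mk]
  have h2 := key d le_rfl
  have h3 : (f '' {j | (j : ℕ) < d}) = Set.range f := by
    ext x
    simp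
  rwa [h3] at h2

end

end Pool.Agent.T9h46.Sop
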