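import Mathlib

/-!
# Every system of parameters of a Cohen-Macaulay module over a local ring is a regular sequence

`regular_of_sop`: over a noetherian local ring `R`, let `M` be a finite module with a regular
sequence of length `d`; then every `f_1, .., f_d` in the maximal ideal with `dim M/(f)M ≤ 0`
is a regular sequence on `M`.
-/

namespace Pool.Agent.T9h46.Sop

open RingTheory.Sequence IsLocalRing Module Pointwise CategoryTheory Abelian

universe u

variable {R : Type u} [CommRing R] [IsNoetherianRing R] [IsLocalRing R]

omit [IsNoetherianRing R] in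
theorem mem_maximalIdeal_of_regular {M : Type u} [AddCommGroup M] [Module R M]
    {rs : List R} (hreg : IsRegular M rs) {r : R} (hr : r ∈ rs) : r ∈ maximalIdeal R := by
  have h1 : Ideal.ofList rs ≠ ⊤ := by
    intro h
    apply hreg.2
    rw [h, Submodule.top_smul]
  exact le_maximalIdeal h1 (Ideal.subset_span hr)

/-- Quotient by a regular element lowers the depth by at most one. -/
theorem exists_regular_quot {M : Type u} [AddCommGroup M] [Module R M] [Module.Finite R M]
    {n : ℕ} (rs : List R) (hlen : rs.length = n + 1) (hreg : IsRegular M rs) {x : R}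
    (hx : x ∈ maximalIdeal R) (hxr : IsSMulRegular M x) :
    ∃ rs' : List R, rs'.length = n ∧ IsRegular (QuotSMulTop x M) rs' := by
  classical
  have hnt : Nontrivial M := hreg.nontrivial
  have hnt' : Nontrivial (QuotSMulTop x M) := nontrivial_quotSMulTop_of_mem_maximalIdeal M hx
  let I : Ideal R := maximalIdeal R
  have hlt : I • (⊤ : Submodule R M) < ⊤ := by
    refine lt_top_iff_ne_top.2 (Ne.symm ?_)
    exact Submodule.top_ne_ideal_smul_of_le_jacobson_annihilator (maximalIdeal_le_jacobson _)
  have hlt' : I • (⊤ : Submodule R (QuotSMulTop x M)) < ⊤ := by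
    refine lt_top_iff_ne_top.2 (Ne.symm ?_)
    exact Submodule.top_ne_ideal_smul_of_le_jacobson_annihilator (maximalIdeal_le_jacobson _)
  let MM : ModuleCat.{u} R := ModuleCat.of R M
  have : Module.Finite R MM := inferInstanceAs (Module.Finite R M)
  have h4 := (ModuleCat.exists_isRegular_tfae I (n + 1) MM hlt).out 3 1
  have hext := h4.1 ⟨rs, hlen, fun r hr => mem_maximalIdeal_of_regular hreg hr, hreg⟩
  let MQ : ModuleCat.{u} R := ModuleCat.of R (QuotSMulTop x M)
  have : Module.Finite R MQ := inferInstanceAs (Module.Finite R (QuotSMulTop x M))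
  have h5 := (ModuleCat.exists_isRegular_tfae I n MQ hlt').out 1 3
  obtain ⟨rs', h1, -, h3⟩ := h5.1 (by
    intro i hi
    have zero1 := AddCommGrpCat.isZero_of_iff_subsingleton.mpr (hext i (by omega))
    have zero2 := AddCommGrpCat.isZero_of_iff_subsingleton.mpr (hext (i + 1) (by omega))
    have hxr' : IsSMulRegular MM x := hxr
    exact AddCommGrpCat.subsingleton_of_isZero <| ShortComplex.Exact.isZero_of_both_zeros
        ((Ext.covariant_sequence_exact₃' _ hxr'.smulShortComplex_shortExact) i (i + 1) rfl)
        (zero1.eq_zero_of_src _) (zero2.eq_zero_of_tgt _))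
  exact ⟨rs', h1, h3⟩

/-- Associated primes of a module with a regular sequence of length `s` have dimension at
least `s`. -/
theorem le_dim_of_mem_ass (rs : List R) : ∀ {M : Type u} [AddCommGroup M] [Module R M]
    [Module.Finite R M] (_ : IsRegular M rs) (P : Ideal R) (_ : P ∈ associatedPrimes R M),
    (rs.length : WithBot ℕ∞) ≤ ringKrullDim (R ⧸ P) := by
  induction rs with
  | nil =>
    intro M _ _ _ hreg P hP
    have := hP.isPrime
    simpa using ringKrullDim_nonneg_of_nontrivial (R := R ⧸ P)
  | cons x rs ih =>
    intro M _ _ _ hreg P hP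
    have hPp := hP.isPrime
    have hxm : x ∈ maximalIdeal R := mem_maximalIdeal_of_regular hreg (by simp)
    obtain ⟨hx, hreg'⟩ := (isRegular_cons_iff M x rs).1 hreg
    obtain ⟨-, m, hm⟩ := isAssociatedPrime_iff.1 hP
    have hmem : ∀ a : R, a ∈ P ↔ a • m = 0 := by
      intro a
      rw [hm, Submodule.mem_colon_singleton, Submodule.mem_bot]
    -- the submodule killed by P
    let N : Submodule R M := Submodule.torsionBySet R M (P : Set R)
    have hNmem : ∀ v : M, v ∈ N ↔ ∀ a ∈ P, a • v = 0 := by
      intro v
      rw [Submodule.mem_torsionBySet_iff]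
      exact ⟨fun h a ha => h ⟨a, ha⟩, fun h a => h a a.2⟩
    have hmN : m ∈ N := (hNmem m).2 fun a ha => (hmem a).1 ha
    have hm0 : m ≠ 0 := by
      intro h
      apply hPp.ne_top
      rw [Ideal.eq_top_iff_one, hmem, h, smul_zero]
    have hex : ∃ v ∈ N, v ∉ x • (⊤ : Submodule R M) := by
      by_contra hcon
      push Not at hcon
      have h1 : N ≤ (maximalIdeal R) • N := by
        intro v hv
        have h2 := hcon v hv
        rw [Submodule.mem_smul_pointwise_iff_exists] at h2
        obtain ⟨w, -, rfl⟩ := h2
        refine Submodule.smul_mem_smul hxm ((hNmem w).2 fun a ha => ?_)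
        have h3 := (hNmem _).1 hv a ha
        rw [smul_comm] at h3
        exact hx (by simpa using h3)
      have h4 : N = ⊥ := Submodule.eq_bot_of_le_smul_of_le_jacobson_bot (maximalIdeal R) N
        (IsNoetherian.noetherian N) h1 (maximalIdeal_le_jacobson _)
      rw [h4, Submodule.mem_bot] at hmN
      exact hm0 hmN
    obtain ⟨v, hvN, hv⟩ := hex
    have hv' : (Submodule.Quotient.mk v : QuotSMulTop x M) ≠ 0 := by
      rw [Ne, Submodule.Quotient.mk_eq_zero]
      exact hv
    obtain ⟨Q, hQ, hle⟩ := exists_le_isAssociatedPrime_of_isNoetherianRing R _ hv'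
    have hQp := hQ.isPrime
    have hPQ : P ≤ Q := by
      intro a ha
      apply hle
      rw [Submodule.mem_colon_singleton, Submodule.mem_bot, ← Submodule.Quotient.mk_smul,
        (hNmem v).1 hvN a ha, Submodule.Quotient.mk_zero]
    have hxQ : x ∈ Q := by
      apply hle
      rw [Submodule.mem_colon_singleton, Submodule.mem_bot, ← Submodule.Quotient.mk_smul,
        Submodule.Quotient.mk_eq_zero]
      exact Submodule.smul_mem_pointwise_smul _ _ _ trivial
    have hxP : x ∉ P := by
      intro h
      rw [hmem] at h
      exact hm0 (hx (by simpa using h))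
    have h1 := ih hreg' Q hQ
    have h2 : ringKrullDim (R ⧸ Q) + 1 ≤ ringKrullDim (R ⧸ P) := by
      refine ringKrullDim_succ_le_of_surjective (Ideal.Quotient.factor hPQ)
        (Ideal.Quotient.factor_surjective hPQ) (r := Ideal.Quotient.mk P x) ?_ ?_
      · rw [mem_nonZeroDivisors_iff_ne_zero, Ne, Ideal.Quotient.eq_zero_iff_mem]
        exact hxP
      · rw [Ideal.Quotient.factor_mk, Ideal.Quotient.eq_zero_iff_mem]
        exact hxQ
    calc (((x :: rs).length : ℕ) : WithBot ℕ∞) = (rs.length : WithBot ℕ∞) + 1 := by simp
      _ ≤ ringKrullDim (R ⧸ Q) + 1 := by gcongr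
      _ ≤ _ := h2

/-- The dimension drops by at most the number of elements. -/
theorem supportDim_le_add_length (fs : List R) : ∀ {M : Type u} [AddCommGroup M] [Module R M]
    [Module.Finite R M] (_ : ∀ f ∈ fs, f ∈ maximalIdeal R),
    supportDim R M ≤ supportDim R (M ⧸ Ideal.ofList fs • (⊤ : Submodule R M)) + fs.length := by
  induction fs with
  | nil =>
    intro M _ _ _ _
    rw [Ideal.ofList_nil, Submodule.bot_smul]
    simpa using (supportDim_eq_of_equiv (Submodule.quotEquivOfEqBot (⊥ : Submodule R M) rfl)).ge
  | cons f fs ih =>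
    intro M _ _ _ hfs
    have h1 := supportDim_le_supportDim_quotSMulTop_succ (R := R) (M := M) (x := f)
      (hfs f (by simp))
    have h2 := ih (M := QuotSMulTop f M) (fun g hg => hfs g (by simp [hg]))
    rw [← supportDim_eq_of_equiv (Submodule.quotOfListConsSMulTopEquivQuotSMulTopInner M f fs)]
      at h2
    calc supportDim R M ≤ supportDim R (QuotSMulTop f M) + 1 := h1
      _ ≤ (supportDim R (M ⧸ Ideal.ofList (f :: fs) • (⊤ : Submodule R M)) + fs.length) + 1 := by
        gcongr
      _ = _ := by simp [add_assoc]


/-- The support dimension is monotone in the support. -/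
theorem supportDim_mono {R : Type u} [CommRing R] {M N : Type u} [AddCommGroup M] [Module R M]
    [AddCommGroup N] [Module R N]
    (h : Module.support R N ⊆ Module.support R M) : supportDim R N ≤ supportDim R M :=
  Order.krullDim_le_of_strictMono (Set.inclusion h) (fun _ _ hlt => hlt)

/-- **Systems of parameters of Cohen-Macaulay modules are regular sequences** (local case). -/
theorem regular_of_sop (n : ℕ) : ∀ {M : Type u} [AddCommGroup M] [Module R M]
    [Module.Finite R M] (rs fs : List R) (_ : rs.length = n) (_ : fs.length = n)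
    (_ : IsRegular M rs) (_ : ∀ f ∈ fs, f ∈ maximalIdeal R)
    (_ : supportDim R (M ⧸ Ideal.ofList fs • (⊤ : Submodule R M)) ≤ 0),
    IsWeaklyRegular M fs := by
  induction n with
  | zero =>
    intro M _ _ _ rs fs _ hf _ _ _
    rw [List.length_eq_zero_iff] at hf
    subst hf
    exact IsWeaklyRegular.nil R M
  | succ n ih =>
    intro M _ _ _ rs fs hrs hfs hreg hmem hdim
    match fs, hfs, hmem, hdim with
    | f :: fs, hfs, hmem, hdim =>
      have hfs' : fs.length = n := by simpa using hfs
      have hfm : f ∈ maximalIdeal R := hmem f (by simp)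
      have hmem' : ∀ g ∈ fs, g ∈ maximalIdeal R := fun g hg => hmem g (by simp [hg])
      have hfreg : IsSMulRegular M f := by
        by_contra hcon
        have h1 : f ∈ ⋃ p ∈ associatedPrimes R M, (p : Set R) := by
          rw [biUnion_associatedPrimes_eq_compl_regular]
          exact hcon
        simp only [Set.mem_iUnion, SetLike.mem_coe, exists_prop] at h1
        obtain ⟨P, hP, hfP⟩ := h1
        have hPp := hP.isPrime
        have h2 := le_dim_of_mem_ass rs hreg P hP
        have h3 : supportDim R (R ⧸ P) ≤
            supportDim R ((R ⧸ P) ⧸ Ideal.ofList fs • (⊤ : Submodule R (R ⧸ P))) + fs.length :=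
          supportDim_le_add_length fs hmem'
        have h4 : supportDim R ((R ⧸ P) ⧸ Ideal.ofList fs • (⊤ : Submodule R (R ⧸ P))) ≤
            supportDim R (M ⧸ Ideal.ofList (f :: fs) • (⊤ : Submodule R M)) := by
          apply supportDim_mono
          rw [Module.support_quotient, Module.support_quotient]
          rintro p ⟨hp1, hp2⟩
          have hPle : P ≤ p.asIdeal := by
            have := Module.mem_support_iff_of_finite.1 hp1
            rwa [Ideal.annihilator_quotient] at this
          refine ⟨?_, ?_⟩
          · rw [Module.mem_support_iff_of_finite]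
            refine le_trans ?_ hPle
            obtain ⟨-, m, hm⟩ := isAssociatedPrime_iff.1 hP
            intro a ha
            rw [hm, Submodule.mem_colon_singleton, Submodule.mem_bot]
            exact Module.mem_annihilator.1 ha m
          · rw [PrimeSpectrum.mem_zeroLocus] at hp2 ⊢
            rw [Ideal.ofList_cons, SetLike.coe_subset_coe]
            refine sup_le ?_ hp2
            rw [Ideal.span_singleton_le_iff_mem]
            exact hPle hfP
        rw [supportDim_quotient_eq_ringKrullDim] at h3
        have h5 : ((n + 1 : ℕ) : WithBot ℕ∞) ≤ (n : ℕ) := by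
          calc ((n + 1 : ℕ) : WithBot ℕ∞) = (rs.length : WithBot ℕ∞) := by rw [hrs]
            _ ≤ ringKrullDim (R ⧸ P) := h2
            _ ≤ _ := h3
            _ ≤ 0 + (fs.length : WithBot ℕ∞) := by
              gcongr
              exact h4.trans hdim
            _ = (n : ℕ) := by rw [hfs', zero_add]
        have h6 : (n + 1 : ℕ) ≤ n := by exact_mod_cast h5
        omega
      have : Module.Finite R (QuotSMulTop f M) := inferInstance
      obtain ⟨rs', hrs', hreg'⟩ := exists_regular_quot rs hrs hreg hfm hfreg
      refine (isWeaklyRegular_cons_iff M f fs).2 ⟨hfreg, ?_⟩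
      refine ih (M := QuotSMulTop f M) rs' fs hrs' hfs' hreg' hmem' ?_
      rw [← supportDim_eq_of_equiv (Submodule.quotOfListConsSMulTopEquivQuotSMulTopInner M f fs)]
      exact hdim

/-- The dimension of a module with a regular sequence which is a system of parameters. -/
theorem supportDim_eq_length {M : Type u} [AddCommGroup M] [Module R M]
    [Module.Finite R M] (rs : List R) (hreg : IsRegular M rs)
    (hdim : supportDim R (M ⧸ Ideal.ofList rs • (⊤ : Submodule R M)) ≤ 0) :
    supportDim R M = rs.length := by
  have h1 := supportDim_add_length_eq_supportDim_of_isRegular rs hreg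
  have hnt : Nontrivial (M ⧸ Ideal.ofList rs • (⊤ : Submodule R M)) := by
    rw [Submodule.Quotient.nontrivial_iff]
    exact fun h => hreg.2 h.symm
  have h2 : 0 ≤ supportDim R (M ⧸ Ideal.ofList rs • (⊤ : Submodule R M)) := by
    rw [supportDim]
    have : Nonempty (Module.support R (M ⧸ Ideal.ofList rs • (⊤ : Submodule R M))) :=
      (Module.nonempty_support_of_nontrivial).to_subtype
    exact Order.krullDim_nonneg
  rw [← h1, le_antisymm hdim h2, zero_add]

end Pool.Agent.T9h46.Sop
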